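import Pool.Agent.KDD.Stmts

set_option autoImplicit false

/-!
# KDD (MP_160b6c_nt), row VGR: values of differences of algebraic numbers
-/

namespace Pool.Agent.KDD.H6

open Polynomial IntermediateField

/-- two terms of a vanishing sum with the largest norm -/
theorem two_max {L : Type} [NormedField L] [IsUltrametricDist L] (S : Finset ℕ) (f : ℕ → L)
    (hS : S.Nonempty) (hf : ∀ i ∈ S, f i ≠ 0) (hsum : ∑ i ∈ S, f i = 0) :
    ∃ i ∈ S, ∃ j ∈ S, i < j ∧ ‖f i‖ = ‖f j‖ := by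
  classical
  obtain ⟨i, hi, hmax⟩ := Finset.exists_max_image S (fun k => ‖f k‖) hS
  have hsplit : f i + ∑ k ∈ S.erase i, f k = 0 := by
    rw [Finset.add_sum_erase S f hi, hsum]
  have hne : (S.erase i).Nonempty := by
    by_contra hemp
    rw [Finset.not_nonempty_iff_eq_empty] at hemp
    rw [hemp, Finset.sum_empty, add_zero] at hsplit
    exact hf i hi hsplit
  obtain ⟨j, hj, hjn⟩ := IsUltrametricDist.exists_norm_finsetSum_le_of_nonempty hne f
  have hjS := Finset.mem_of_mem_erase hj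
  have hji := Finset.ne_of_mem_erase hj
  have h1 : ‖f i‖ = ‖∑ k ∈ S.erase i, f k‖ := by
    rw [eq_neg_of_add_eq_zero_left hsplit, norm_neg]
  have h2 : ‖f i‖ = ‖f j‖ := le_antisymm (h1 ▸ hjn) (hmax j hjS)
  rcases lt_or_gt_of_ne hji with h | h
  · exact ⟨j, hjS, i, hi, h, h2.symm⟩
  · exact ⟨i, hi, j, hjS, h, h2⟩

theorem vgr : VgrStatement := by
  intro K L _ _ _ φ c p q x y hc hc1 hval hp hq hx hy hxy
  classical
  letI : Algebra K L := φ.toAlgebra
  have halg : algebraMap K L = φ := rfl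
  have hxp : aeval x p = 0 := by
    rw [aeval_def, halg, ← eval_map]; exact hx
  have hyq : aeval y q = 0 := by
    rw [aeval_def, halg, ← eval_map]; exact hy
  have hxi : IsIntegral K x := (isAlgebraic_iff_isIntegral (K := K)).mp ⟨p, hp, hxp⟩
  have hyi : IsIntegral K y := (isAlgebraic_iff_isIntegral (K := K)).mp ⟨q, hq, hyq⟩
  haveI : FiniteDimensional K K⟮x⟯ := adjoin.finiteDimensional hxi
  haveI : FiniteDimensional K K⟮y⟯ := adjoin.finiteDimensional hyi
  have hdx : Module.finrank K K⟮x⟯ ≤ p.natDegree := by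
    rw [adjoin.finrank hxi]
    exact natDegree_le_natDegree (minpoly.degree_le_of_ne_zero K x hp hxp)
  have hdy : Module.finrank K K⟮y⟯ ≤ q.natDegree := by
    rw [adjoin.finrank hyi]
    exact natDegree_le_natDegree (minpoly.degree_le_of_ne_zero K y hq hyq)
  let E : IntermediateField K L := K⟮x⟯ ⊔ K⟮y⟯
  haveI : FiniteDimensional K E := finiteDimensional_sup K⟮x⟯ K⟮y⟯
  have hdE : Module.finrank K E ≤ p.natDegree * q.natDegree :=
    (finrank_sup_le K⟮x⟯ K⟮y⟯).trans (Nat.mul_le_mul hdx hdy)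
  have hxE : x ∈ E := (le_sup_left : K⟮x⟯ ≤ E) (mem_adjoin_simple_self K x)
  have hyE : y ∈ E := (le_sup_right : K⟮y⟯ ≤ E) (mem_adjoin_simple_self K y)
  obtain ⟨z, hz⟩ : ∃ z : E, (z : L) = x - y := ⟨⟨x - y, sub_mem hxE hyE⟩, rfl⟩
  have hzi : IsIntegral K z := IsIntegral.of_finite K z
  obtain ⟨P, hP⟩ : ∃ P : K[X], P = minpoly K z := ⟨_, rfl⟩
  have hP0 : P ≠ 0 := hP ▸ minpoly.ne_zero hzi
  have hPd : P.natDegree ≤ p.natDegree * q.natDegree := by
    rw [hP]; exact (minpoly.natDegree_le z).trans hdE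
  have hPz : aeval (x - y) P = 0 := by
    have h1 : aeval z P = 0 := hP ▸ minpoly.aeval K z
    rw [← hz]
    have h2 : aeval (algebraMap E L z) P = algebraMap E L (aeval z P) :=
      aeval_algebraMap_apply L z P
    have h3 : algebraMap E L z = (z : L) := rfl
    rw [h3] at h2
    rw [h2, h1, map_zero]
  have hz0 : x - y ≠ 0 := sub_ne_zero.mpr hxy
  have hsum : ∑ i ∈ P.support, φ (P.coeff i) * (x - y) ^ i = 0 := by
    rw [aeval_def, eval₂_eq_sum, Polynomial.sum_def, halg] at hPz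
    exact hPz
  have hsupp : P.support.Nonempty := by
    rw [Finset.nonempty_iff_ne_empty, Ne, support_eq_empty]; exact hP0
  have hne : ∀ i ∈ P.support, φ (P.coeff i) * (x - y) ^ i ≠ 0 := by
    intro i hi
    exact mul_ne_zero ((map_ne_zero φ).mpr (mem_support_iff.mp hi)) (pow_ne_zero _ hz0)
  obtain ⟨i, hi, j, hj, hij, heq⟩ := two_max P.support _ hsupp hne hsum
  obtain ⟨a, ha⟩ := hval _ (mem_support_iff.mp hi)
  obtain ⟨b, hb⟩ := hval _ (mem_support_iff.mp hj)
  refine ⟨j - i, a - b, by omega, ?_, ?_⟩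
  · have h1 : j ≤ P.natDegree := le_natDegree_of_mem_supp j hj
    omega
  · rw [norm_mul, norm_mul, norm_pow, norm_pow, ha, hb] at heq
    have hzn : 0 < ‖x - y‖ := norm_pos_iff.mpr hz0
    have h1 : ‖x - y‖ ^ j = ‖x - y‖ ^ (j - i) * ‖x - y‖ ^ i := by
      rw [← pow_add]; congr 1; omega
    rw [h1] at heq
    have h2 : c ^ a = c ^ b * ‖x - y‖ ^ (j - i) := by
      have h3 : c ^ a * ‖x - y‖ ^ i = (c ^ b * ‖x - y‖ ^ (j - i)) * ‖x - y‖ ^ i := by
        rw [heq]; ring
      exact mul_right_cancel₀ (pow_pos hzn i).ne' h3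
    rw [zpow_sub₀ hc.ne', h2]
    have h4 : c ^ b ≠ 0 := (zpow_pos hc b).ne'
    field_simp

end Pool.Agent.KDD.H6
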